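import Pool.Agent.PRT.StmtsC

/-!
# PRT, row LOW: the lower bound for the displacement
-/

set_option autoImplicit false

namespace Pool.Agent.PRT.H52

open Set MeasureTheory
open scoped ContDiff
open Pool.Agent.PRT

/-- the second order remainder -/
theorem taylor (φ : E → E) (B : ℝ) (hφ : ContDiff ℝ ∞ φ)
    (h2 : ∀ z, ‖iteratedFDeriv ℝ 2 φ z‖ ≤ B) (z0 h : E) :
    ‖φ (z0 + h) - φ z0 - fderiv ℝ φ z0 h‖ ≤ B * ‖h‖ ^ 2 := by
  have hB : 0 ≤ B := (norm_nonneg _).trans (h2 z0)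
  have s1 : ContDiff ℝ ∞ (fderiv ℝ φ) := hφ.fderiv_right (by simp)
  have h3 : ∀ x, ‖fderiv ℝ (fderiv ℝ φ) x‖ ≤ B := by
    intro x
    have e1 : ‖iteratedFDeriv ℝ 0 (fderiv ℝ (fderiv ℝ φ)) x‖ =
        ‖iteratedFDeriv ℝ (0 + 1) (fderiv ℝ φ) x‖ := norm_iteratedFDeriv_fderiv
    have e2 : ‖iteratedFDeriv ℝ 1 (fderiv ℝ φ) x‖ = ‖iteratedFDeriv ℝ (1 + 1) φ x‖ :=
      norm_iteratedFDeriv_fderiv
    rw [norm_iteratedFDeriv_zero] at e1
    rw [e1]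
    show ‖iteratedFDeriv ℝ 1 (fderiv ℝ φ) x‖ ≤ B
    rw [e2]
    exact h2 x
  have hd : ∀ z, ‖fderiv ℝ φ z - fderiv ℝ φ z0‖ ≤ B * ‖z - z0‖ := fun z =>
    Convex.norm_image_sub_le_of_norm_fderiv_le (𝕜 := ℝ) (s := Set.univ)
      (fun x _ => (s1.differentiable (by simp)).differentiableAt) (fun x _ => h3 x)
      convex_univ (mem_univ _) (mem_univ _)
  have h1 := Convex.norm_image_sub_le_of_norm_fderiv_le' (𝕜 := ℝ) (f := φ)
    (φ := fderiv ℝ φ z0) (C := B * ‖h‖) (s := Metric.closedBall z0 ‖h‖) (x := z0) (y := z0 + h)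
    (fun x _ => (hφ.differentiable (by simp)).differentiableAt)
    (fun x hx => (hd x).trans (mul_le_mul_of_nonneg_left (by simpa [dist_eq_norm] using hx) hB))
    (convex_closedBall _ _) (Metric.mem_closedBall_self (norm_nonneg _)) (by simp)
  have e : z0 + h - z0 = h := by abel
  rw [e] at h1
  calc _ ≤ B * ‖h‖ * ‖h‖ := h1
    _ = B * ‖h‖ ^ 2 := by ring

/-- the variation of constants -/
theorem voc (M : E →L[ℝ] E) (D w : ℕ → E) (h0 : D 0 = 0) (hs : ∀ j, D (j + 1) = M (D j) + w j) :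
    ∀ j, D j = ∑ i ∈ Finset.range j, (M ^ (j - 1 - i)) (w i) := by
  intro j
  induction j with
  | zero => simpa using h0
  | succ j ih =>
    rw [hs, Finset.sum_range_succ]
    have e1 : j + 1 - 1 - j = 0 := by omega
    rw [e1, pow_zero, ContinuousLinearMap.one_apply]
    congr 1
    conv_lhs => rw [ih]
    rw [map_sum]
    apply Finset.sum_congr rfl
    intro i hi
    have hi' : i < j := Finset.mem_range.1 hi
    have e2 : j + 1 - 1 - i = (j - 1 - i) + 1 := by omega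
    rw [e2, pow_succ', ContinuousLinearMap.mul_apply]

theorem low (hNWT : NwtStmt) (hMAT : MatStmt) : LowStmt := by
  refine ⟨8, ?_⟩
  intro g v C l N hl hN H z0
  by_contra hcon
  have hcon' : ‖g z0 - z0‖ * l ^ 68 < ‖v‖ := not_le.1 hcon
  obtain ⟨φ, hφd⟩ : ∃ φ : E → E, φ = fun z => g z - z := ⟨_, rfl⟩
  have hφz : ∀ z, φ z = g z - z := fun z => by rw [hφd]
  have hl0 : 0 < l := by linarith
  obtain ⟨t, ht⟩ : ∃ t : ℝ, l * t = 1 := ⟨l⁻¹, mul_inv_cancel₀ hl0.ne'⟩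
  have ht0 : 0 < t := by
    by_contra h
    have h' : t ≤ 0 := not_lt.1 h
    nlinarith
  have ht8 : t ≤ 1 / 8 := by nlinarith
  have sg := H.lf.sm
  have sφ : ContDiff ℝ ∞ φ := by rw [hφd]; exact sg.sub contDiff_id
  obtain ⟨ε, hε⟩ : ∃ ε : ℝ, ε = ‖v‖ := ⟨_, rfl⟩
  have ε0 : 0 < ε := by rw [hε]; exact H.v0
  have ε1 : ε ≤ 1 := by
    have h1 := H.lN
    rw [← hε] at h1
    have h2 : 1 ≤ l ^ (2 * N) := one_le_pow₀ H.l1
    nlinarith
  have b1 : ∀ z, ‖fderiv ℝ φ z‖ ≤ ε * l ^ 9 := by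
    intro z
    have h1 := H.bd 1 (by norm_num) z
    rw [← hφd, ← hε] at h1
    have e1 : ‖iteratedFDeriv ℝ 0 (fderiv ℝ φ) z‖ = ‖iteratedFDeriv ℝ (0 + 1) φ z‖ :=
      norm_iteratedFDeriv_fderiv
    rw [norm_iteratedFDeriv_zero] at e1
    rw [e1]
    exact h1
  have b2 : ∀ z, ‖iteratedFDeriv ℝ 2 φ z‖ ≤ ε * l ^ 10 := by
    intro z
    have h1 := H.bd 2 le_rfl z
    rw [← hφd, ← hε] at h1
    exact h1
  have hC0 : 0 ≤ C := (norm_nonneg _).trans (H.lf.dev 0 0)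
  -- no fixed point
  have hnz : ∀ z, φ z ≠ 0 := by
    intro z hz
    have hz' : g z = z := by
      rw [hφz] at hz
      exact sub_eq_zero.1 hz
    obtain ⟨n, hn⟩ := exists_nat_gt (C / ε)
    have h1 := H.lf.dev n z
    rw [Function.iterate_fixed hz' n, sub_self, zero_sub, norm_neg, norm_smul, ← hε,
      Real.norm_of_nonneg (Nat.cast_nonneg n)] at h1
    rw [div_lt_iff₀ ε0] at hn
    linarith
  -- the derivative at `z0`
  obtain ⟨A, hA⟩ : ∃ A : E →L[ℝ] E, A = fderiv ℝ φ z0 := ⟨_, rfl⟩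
  have hdet : (1 + A).det = 1 := by
    have h1 : HasFDerivAt φ A z0 := by
      rw [hA]
      exact (sφ.differentiable (by simp)).differentiableAt.hasFDerivAt
    have h2 : HasFDerivAt (fun z : E => z) (1 : E →L[ℝ] E) z0 := hasFDerivAt_id z0
    have h3 := h2.fun_add h1
    have h4 : (fun z : E => z + φ z) = g := by
      funext z
      rw [hφz]
      abel
    rw [h4] at h3
    rw [← h3.fderiv]
    exact H.lf.det z0
  obtain ⟨ξ, hξ⟩ : ∃ ξ : ℝ, ξ = ‖φ z0‖ := ⟨_, rfl⟩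
  have hξ0 : 0 ≤ ξ := by rw [hξ]; exact norm_nonneg _
  have hlt : ∀ k m : ℕ, l ^ k * t ^ (k + m) = t ^ m := by
    intro k m
    rw [pow_add, ← mul_assoc, ← mul_pow, ht, one_pow, one_mul]
  have hξt : ξ ≤ ε * t ^ 68 := by
    rw [← hφz, ← hξ, ← hε] at hcon'
    have h1 : 0 < t ^ 68 := by positivity
    have h2 : ξ = ξ * (l ^ 68 * t ^ (68 + 0)) := by rw [hlt]; simp
    rw [h2]
    have h3 : ξ * (l ^ 68 * t ^ (68 + 0)) = (ξ * l ^ 68) * t ^ 68 := by ring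
    rw [h3]
    exact (mul_le_mul_of_nonneg_right hcon'.le h1.le)
  have hA1 : ‖A‖ ≤ ε * l ^ 9 := by rw [hA]; exact b1 z0
  have hd : |A.det| ≤ 4 * ε ^ 2 * t ^ 20 := by
    by_cases h0 : A.det = 0
    · rw [h0, abs_zero]
      positivity
    · have h1 : ¬ (16 * ‖A‖ ^ 2 * ‖φ z0‖ * (ε * l ^ 10) ≤ A.det ^ 2) := by
        intro h
        rw [hA] at h h0
        obtain ⟨z, hz⟩ := hNWT φ z0 (ε * l ^ 10) sφ b2 h0 h
        exact hnz z hz
      have h2 := (not_le.1 h1).le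
      rw [← hξ] at h2
      apply abs_le_of_sq_le_sq _ (by positivity)
      refine h2.trans ?_
      have h3 : ‖A‖ ^ 2 ≤ (ε * l ^ 9) ^ 2 := pow_le_pow_left₀ (norm_nonneg _) hA1 2
      calc 16 * ‖A‖ ^ 2 * ξ * (ε * l ^ 10) ≤ 16 * (ε * l ^ 9) ^ 2 * (ε * t ^ 68) * (ε * l ^ 10) := by
            gcongr
        _ = 16 * ε ^ 4 * (l ^ 28 * t ^ (28 + 40)) := by ring
        _ = 16 * ε ^ 4 * t ^ 40 := by rw [hlt]
        _ = (4 * ε ^ 2 * t ^ 20) ^ 2 := by ring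
  -- the time `n`
  obtain ⟨n, hn⟩ : ∃ n : ℕ, n = ⌈(C + 1) / ε⌉₊ := ⟨_, rfl⟩
  have hn1 : C + 1 ≤ n * ε := by
    have h1 : (C + 1) / ε ≤ n := by rw [hn]; exact Nat.le_ceil _
    rwa [div_le_iff₀ ε0] at h1
  have hn2 : n * ε ≤ 3 * l := by
    have h1 : (n : ℝ) < (C + 1) / ε + 1 := by
      rw [hn]
      exact Nat.ceil_lt_add_one (by positivity)
    have h2 : (n : ℝ) * ε < ((C + 1) / ε + 1) * ε := mul_lt_mul_of_pos_right h1 ε0
    have h3 : ((C + 1) / ε + 1) * ε = C + 1 + ε := by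
      field_simp
    have h4 := H.Cl
    linarith
  have hnε : 0 ≤ n * ε := by positivity
  have hmat : ∀ j ≤ n, ‖(1 + A) ^ j‖ ≤ l ^ 11 := by
    intro j hj
    have h1 : (n : ℝ) ^ 2 * |A.det| ≤ 1 / 8 := by
      calc (n : ℝ) ^ 2 * |A.det| ≤ (n : ℝ) ^ 2 * (4 * ε ^ 2 * t ^ 20) := by gcongr
        _ = 4 * (n * ε) ^ 2 * t ^ 20 := by ring
        _ ≤ 4 * (3 * l) ^ 2 * t ^ 20 := by gcongr
        _ = 36 * (l ^ 2 * t ^ (2 + 18)) := by ring
        _ = 36 * t ^ 18 := by rw [hlt]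
        _ ≤ 36 * (1 / 8) ^ 18 := by gcongr
        _ ≤ 1 / 8 := by norm_num
    have h2 := hMAT A n hdet h1 j hj
    refine h2.trans ?_
    have hj' : (j : ℝ) ≤ n := by exact_mod_cast hj
    calc 2 + 2 * (j : ℝ) * ‖A‖ ≤ 2 + 2 * (n : ℝ) * (ε * l ^ 9) := by gcongr
      _ = 2 + 2 * (n * ε) * l ^ 9 := by ring
      _ ≤ 2 + 2 * (3 * l) * l ^ 9 := by gcongr
      _ = 2 + 6 * l ^ 10 := by ring
      _ ≤ 2 * l ^ 10 + 6 * l ^ 10 := by
          have : 1 ≤ l ^ 10 := one_le_pow₀ H.l1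
          linarith
      _ = 8 * l ^ 10 := by ring
      _ ≤ l * l ^ 10 := by gcongr
      _ = l ^ 11 := by ring
  -- the orbit
  obtain ⟨D, hD⟩ : ∃ D : ℕ → E, D = fun j => g^[j] z0 - z0 := ⟨_, rfl⟩
  obtain ⟨w, hw⟩ : ∃ w : ℕ → E, w = fun j => φ z0 + (φ (z0 + D j) - φ z0 - A (D j)) := ⟨_, rfl⟩
  have hD0 : D 0 = 0 := by rw [hD]; simp
  have hDs : ∀ j, D (j + 1) = (1 + A) (D j) + w j := by
    intro j
    have e1 : z0 + D j = g^[j] z0 := by rw [hD]; simp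
    have e2 : D (j + 1) = g (g^[j] z0) - z0 := by
      rw [hD]
      simp only [Function.iterate_succ_apply']
    rw [e2, hw]
    simp only [ContinuousLinearMap.add_apply, ContinuousLinearMap.one_apply, e1, hφz (g^[j] z0)]
    rw [← e1]
    abel
  have hsum := voc (1 + A) D w hD0 hDs
  have hwb : ∀ j, ‖w j‖ ≤ ξ + ε * l ^ 10 * ‖D j‖ ^ 2 := by
    intro j
    rw [hw]
    refine (norm_add_le _ _).trans ?_
    rw [← hξ]
    have h1 := taylor φ (ε * l ^ 10) sφ b2 z0 (D j)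
    rw [← hA] at h1
    linarith
  have main : ∀ j ≤ n, ‖D j‖ ≤ t ^ 50 := by
    intro j
    induction j using Nat.strong_induction_on with
    | _ j ih =>
    intro hj
    have h1 : ∀ i ∈ Finset.range j, ‖((1 + A) ^ (j - 1 - i)) (w i)‖ ≤
        l ^ 11 * (ε * t ^ 68 + ε * l ^ 10 * (t ^ 50) ^ 2) := by
      intro i hi
      have hi' : i < j := Finset.mem_range.1 hi
      have h2 := ih i hi' (by omega)
      have h3 := hwb i
      have h4 : ‖D i‖ ^ 2 ≤ (t ^ 50) ^ 2 := pow_le_pow_left₀ (norm_nonneg _) h2 2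
      have h5 : ‖w i‖ ≤ ε * t ^ 68 + ε * l ^ 10 * (t ^ 50) ^ 2 := by
        refine h3.trans ?_
        gcongr
      refine (ContinuousLinearMap.le_opNorm _ _).trans ?_
      have h6 := hmat (j - 1 - i) (by omega)
      exact mul_le_mul h6 h5 (norm_nonneg _) (by positivity)
    rw [hsum j]
    refine (norm_sum_le _ _).trans ?_
    refine (Finset.sum_le_sum h1).trans ?_
    rw [Finset.sum_const, Finset.card_range, nsmul_eq_mul]
    have hj' : (j : ℝ) ≤ n := by exact_mod_cast hj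
    have hp : 0 ≤ l ^ 11 * (t ^ 68 + l ^ 10 * (t ^ 50) ^ 2) := by positivity
    calc (j : ℝ) * (l ^ 11 * (ε * t ^ 68 + ε * l ^ 10 * (t ^ 50) ^ 2)) ≤
          (n : ℝ) * (l ^ 11 * (ε * t ^ 68 + ε * l ^ 10 * (t ^ 50) ^ 2)) := by gcongr
      _ = (n * ε) * (l ^ 11 * (t ^ 68 + l ^ 10 * (t ^ 50) ^ 2)) := by ring
      _ ≤ (3 * l) * (l ^ 11 * (t ^ 68 + l ^ 10 * (t ^ 50) ^ 2)) :=
          mul_le_mul_of_nonneg_right hn2 hp
      _ = 3 * (l ^ 12 * t ^ (12 + 56)) + 3 * (l ^ 22 * t ^ (22 + 78)) := by ring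
      _ = 3 * t ^ 56 + 3 * t ^ 78 := by rw [hlt, hlt]
      _ ≤ 3 * t ^ 56 + 3 * t ^ 56 := by
          have : t ^ 78 ≤ t ^ 56 := pow_le_pow_of_le_one ht0.le (by linarith) (by norm_num)
          linarith
      _ = (6 * t ^ 6) * t ^ 50 := by ring
      _ ≤ 1 * t ^ 50 := by
          have h7 : 6 * t ^ 6 ≤ 1 := by
            calc 6 * t ^ 6 ≤ 6 * (1 / 8) ^ 6 := by gcongr
              _ ≤ 1 := by norm_num
          exact mul_le_mul_of_nonneg_right h7 (by positivity)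
      _ = t ^ 50 := one_mul _
  -- the contradiction
  have h1 := main n le_rfl
  have h2 := H.lf.dev n z0
  have h3 : ‖(n : ℝ) • v‖ = n * ε := by
    rw [norm_smul, ← hε, Real.norm_of_nonneg (Nat.cast_nonneg n)]
  have h4 : ‖(n : ℝ) • v‖ ≤ ‖D n‖ + ‖g^[n] z0 - z0 - (n : ℝ) • v‖ := by
    have hDn : D n = g^[n] z0 - z0 := by rw [hD]
    have e : (n : ℝ) • v = D n - (g^[n] z0 - z0 - (n : ℝ) • v) := by
      rw [hDn, sub_sub_cancel]
    calc ‖(n : ℝ) • v‖ = ‖D n - (g^[n] z0 - z0 - (n : ℝ) • v)‖ := by rw [← e]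
      _ ≤ _ := norm_sub_le _ _
  have h5 : t ^ 50 ≤ (1 / 8) ^ 50 := by gcongr
  have h6 : ((1 : ℝ) / 8) ^ 50 < 1 := by norm_num
  linarith

end Pool.Agent.PRT.H52
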